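import Pool.Agent.KS6_23.LP.LP14

set_option autoImplicit false

/-!
# MP_86d647_an, Q1: polarization strictly raises the negative eigenvalue of the logarithmic
potential, except in the trivial cases

For every bounded measurable set `Ω` of the plane (identified with `ℂ`) and every open half-plane
`H`, `τ̃₁(Ω) ≤ τ̃₁(P_H Ω)`, with equality if and only if `τ̃₁(Ω) = 0` or `P_H Ω` is, up to a null
set, `Ω` or the reflection of `Ω`.
-/

open MeasureTheory Set
open scoped RealInnerProductSpace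

namespace Pool.Agent.Results.MP_86d647_an.EqualityCases

/-- `l` is an eigenvalue of `(𝓛_Ω u)(x) = ∫_Ω log (1/|x-y|) u(y) dy` on `L²(Ω)` -/
def IsEigenvalue (Ω : Set ℂ) (l : ℝ) : Prop :=
  ∃ u : ℂ → ℝ, MemLp u 2 (volume.restrict Ω) ∧ ¬ (u =ᵐ[volume.restrict Ω] 0) ∧
    ∀ᵐ x ∂(volume.restrict Ω), ∫ y in Ω, Real.log (1 / ‖x - y‖) * u y = l * u x

/-- `sup` over `z₁, …, z_n ∈ E` of `∏_{i<j} |z_i - z_j|^{2/(n(n-1))}` -/
noncomputable def nthDiameter (E : Set ℂ) (n : ℕ) : ℝ :=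
  sSup {r | ∃ z : Fin n → ℂ, (∀ i, z i ∈ E) ∧
    r = (∏ i, ∏ j ∈ Finset.Ioi i, ‖z i - z j‖) ^ (2 / ((n : ℝ) * (n - 1)))}

/-- `T` is the transfinite diameter of `E` -/
def IsTransfiniteDiameter (E : Set ℂ) (T : ℝ) : Prop :=
  Filter.Tendsto (nthDiameter E) Filter.atTop (nhds T)

/-- the possible values of `τ̃₁(Ω)`: a negative eigenvalue of `𝓛_Ω`, or `0`, the latter provided that
the transfinite diameter of the closure of `Ω` is at most `1` or `𝓛_Ω` has no negative eigenvalue -/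
def IsTau (Ω : Set ℂ) (τ : ℝ) : Prop :=
  (τ < 0 ∧ IsEigenvalue Ω τ) ∨
  (τ = 0 ∧ ((∃ T ≤ 1, IsTransfiniteDiameter (closure Ω) T) ∨ ∀ l < 0, ¬ IsEigenvalue Ω l))

/-- the open half-plane with unit normal `n` -/
def halfPlane (n : ℂ) (c : ℝ) : Set ℂ := {x | c < ⟪n, x⟫}

/-- the reflection in its boundary line (`‖n‖ = 1`) -/
noncomputable def reflect (n : ℂ) (c : ℝ) (x : ℂ) : ℂ := x - (2 * (⟪n, x⟫ - c)) • n

/-- the polarization `P_H(Ω)` -/
def polarization (n : ℂ) (c : ℝ) (Ω : Set ℂ) : Set ℂ :=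
  ((Ω ∪ reflect n c '' Ω) ∩ halfPlane n c) ∪ ((Ω ∩ reflect n c '' Ω) \ halfPlane n c)

/-- the negative eigenvalue determines `τ̃₁` -/
theorem tau_eq {A : Set ℂ} (hA : MeasurableSet A) (hb : Bornology.IsBounded A) {τ l : ℝ}
    (hτ : IsTau A τ) (hl0 : l < 0) (hl : IsEigenvalue A l) : τ = l := by
  obtain ⟨R, hR⟩ := hb.subset_ball 0
  have hR1 : A ⊆ Metric.ball 0 (|R| + 1) := hR.trans (Metric.ball_subset_ball (by
    have := le_abs_self R
    linarith))
  have hRp : 0 < |R| + 1 := by positivity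
  rcases hτ with ⟨h3, h4⟩ | ⟨h3, h4⟩
  · exact Pool.Agent.KS6_23.LP.eig_unique hRp hA hR1 h3 hl0 h4 hl
  · exfalso
    rcases h4 with ⟨T, hT1, hT⟩ | h4
    · have := Pool.Agent.KS6_23.LP.tdiam_gt hA hRp hR1 hl0 hl hT
      linarith
    · exact h4 l hl0 hl

/-- `τ̃₁` depends only on the negative eigenvalues -/
theorem tau_congr {A B : Set ℂ} (hA : MeasurableSet A) (hbA : Bornology.IsBounded A)
    (hB : MeasurableSet B) (hbB : Bornology.IsBounded B)
    (h1 : ∀ l, IsEigenvalue A l → IsEigenvalue B l) (h2 : ∀ l, IsEigenvalue B l → IsEigenvalue A l)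
    {τ τ' : ℝ} (hτ : IsTau A τ) (hτ' : IsTau B τ') : τ = τ' := by
  rcases hτ' with ⟨h3, h4⟩ | ⟨h3, h4⟩
  · exact tau_eq hA hbA hτ h3 (h2 _ h4)
  · rcases hτ with ⟨h5, h6⟩ | ⟨h5, h6⟩
    · exact (tau_eq hB hbB (Or.inr ⟨h3, h4⟩) h5 (h1 _ h6)).symm
    · rw [h3, h5]

/-- `τ̃₁` is well defined -/
theorem exists_unique_tau {A : Set ℂ} (hA : MeasurableSet A) (hb : Bornology.IsBounded A) :
    ∃! τ, IsTau A τ := by
  have hex : ∃ τ, IsTau A τ := by
    by_cases h : ∃ l < 0, IsEigenvalue A l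
    · obtain ⟨l, hl, hle⟩ := h
      exact ⟨l, Or.inl ⟨hl, hle⟩⟩
    · push Not at h
      exact ⟨0, Or.inr ⟨rfl, Or.inr h⟩⟩
  obtain ⟨τ, hτ⟩ := hex
  exact ⟨τ, hτ, fun t ht => tau_congr hA hb hA hb (fun _ h => h) (fun _ h => h) ht hτ⟩

/-- the inequality and the equality cases -/
theorem main (Ω : Set ℂ) (hΩ : MeasurableSet Ω) (hb : Bornology.IsBounded Ω) (n : ℂ)
    (hn : ‖n‖ = 1) (c : ℝ) (τ τ' : ℝ) (hτ : IsTau Ω τ) (hτ' : IsTau (polarization n c Ω) τ') :
    τ ≤ τ' ∧ (τ = τ' ↔ τ = 0 ∨ polarization n c Ω =ᵐ[volume] Ω ∨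
      polarization n c Ω =ᵐ[volume] reflect n c '' Ω) := by
  obtain ⟨R, hR⟩ := hb.subset_ball 0
  have hR1 : Ω ⊆ Metric.ball 0 (|R| + 1) := hR.trans (Metric.ball_subset_ball (by
    have := le_abs_self R
    linarith))
  let P : Pool.Agent.KS6_23.LP.HP := ⟨n, hn, c⟩
  have hpol : polarization n c Ω = P.pol Ω := by
    have hH : halfPlane n c = P.H := by
      ext x
      change c < ⟪n, x⟫ ↔ 0 < ⟪n, x⟫ - c
      rw [sub_pos]
    unfold polarization Pool.Agent.KS6_23.LP.HP.pol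
    rw [hH]
    rfl
  have hrefl : reflect n c '' Ω = P.σ '' Ω := rfl
  have hτ0 : τ ≤ 0 := by
    rcases hτ with ⟨h, _⟩ | ⟨h, _⟩
    · exact h.le
    · exact h.le
  have hτ0' : τ' ≤ 0 := by
    rcases hτ' with ⟨h, _⟩ | ⟨h, _⟩
    · exact h.le
    · exact h.le
  rw [hpol] at hτ' ⊢
  rw [hrefl]
  have hpm := P.pol_meas hΩ
  have hcσ : Continuous P.σ := by
    have := P.s_cont
    unfold Pool.Agent.KS6_23.LP.HP.σ
    fun_prop
  have hbσ : Bornology.IsBounded (P.σ '' Ω) := by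
    have hc : Metric.closedBall (0:ℂ) R ⊇ Ω := hR.trans Metric.ball_subset_closedBall
    exact ((isCompact_closedBall (0:ℂ) R).image hcσ).isBounded.subset (image_mono hc)
  have hσm : MeasurableSet (P.σ '' Ω) := by rw [P.image_eq]; exact P.σ_meas hΩ
  have hbp : Bornology.IsBounded (P.pol Ω) := by
    refine (hb.union hbσ).subset ?_
    intro x hx
    rw [P.mem_pol] at hx
    have h1 : x ∈ P.σ '' Ω ↔ P.σ x ∈ Ω := by rw [P.image_eq]; rfl
    rw [mem_union, h1]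
    tauto
  have hle : τ ≤ τ' := by
    rcases hτ' with ⟨h1, h2⟩ | ⟨h1, _⟩
    · obtain ⟨l, hl, hle⟩ := Pool.Agent.KS6_23.LP.polar P hΩ hR1 (μ := -τ') (by linarith)
        (by rw [neg_neg]; exact h2)
      rw [neg_neg] at hl
      have := tau_eq hΩ hb hτ (by linarith) hle
      rw [this]; exact hl
    · rw [h1]; exact hτ0
  refine ⟨hle, ?_, ?_⟩
  · intro heq
    by_contra hcon
    push Not at hcon
    obtain ⟨hne, hc1, hc2⟩ := hcon
    have hneg : τ' < 0 := by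
      rw [← heq]
      exact lt_of_le_of_ne hτ0 hne
    have heig : IsEigenvalue (P.pol Ω) τ' := by
      rcases hτ' with ⟨_, h2⟩ | ⟨h1, _⟩
      · exact h2
      · exact absurd h1 hneg.ne
    obtain ⟨l, hl, hle2⟩ := Pool.Agent.KS6_23.LP.polar_strict P hΩ hR1 (μ := -τ') (by linarith)
      (by rw [neg_neg]; exact heig)
      (fun h0 => hc2 (Pool.Agent.KS6_23.LP.pol_ae_reflect P h0))
      (fun h0 => hc1 (Pool.Agent.KS6_23.LP.pol_ae_self P h0))
    rw [neg_neg] at hl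
    have := tau_eq hΩ hb hτ (by linarith) hle2
    linarith
  · rintro (h | h | h)
    · linarith
    · exact tau_congr hΩ hb hpm hbp
        (fun l hl => Pool.Agent.KS6_23.LP.IsEig.congr_ae h.symm hl)
        (fun l hl => Pool.Agent.KS6_23.LP.IsEig.congr_ae h hl) hτ hτ'
    · refine tau_congr hΩ hb hpm hbp (fun l hl => ?_) (fun l hl => ?_) hτ hτ'
      · exact Pool.Agent.KS6_23.LP.IsEig.congr_ae h.symm
          (Pool.Agent.KS6_23.LP.IsEig.reflect P hΩ hb hl)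
      · have h1 : Pool.Agent.KS6_23.LP.IsEig (P.σ '' Ω) l :=
          Pool.Agent.KS6_23.LP.IsEig.congr_ae h hl
        have h2 := Pool.Agent.KS6_23.LP.IsEig.reflect P hσm hbσ h1
        have h3 : P.σ '' (P.σ '' Ω) = Ω := by
          rw [P.image_eq, P.image_eq]
          ext x
          simp only [mem_preimage, P.σσ]
        rwa [h3] at h2

/-- **The polarization inequality for the negative eigenvalue of the logarithmic potential, with
its equality cases.** For every bounded measurable set `Ω` and every open half-plane `H`: `τ̃₁(Ω)`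
and `τ̃₁(P_H Ω)` are well defined, `τ̃₁(Ω) ≤ τ̃₁(P_H Ω)`, and equality holds if and only if
`τ̃₁(Ω) = 0` or `P_H Ω` is, up to a null set, `Ω` or its reflection. -/
theorem result (Ω : Set ℂ) (hΩ : MeasurableSet Ω) (hb : Bornology.IsBounded Ω) (n : ℂ)
    (hn : ‖n‖ = 1) (c : ℝ) :
    (∃! τ, IsTau Ω τ) ∧ (∃! τ', IsTau (polarization n c Ω) τ') ∧
    ∀ τ τ' : ℝ, IsTau Ω τ → IsTau (polarization n c Ω) τ' →
      τ ≤ τ' ∧ (τ = τ' ↔ τ = 0 ∨ polarization n c Ω =ᵐ[volume] Ω ∨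
        polarization n c Ω =ᵐ[volume] reflect n c '' Ω) := by
  refine ⟨exists_unique_tau hΩ hb, ?_, fun τ τ' h1 h2 => main Ω hΩ hb n hn c τ τ' h1 h2⟩
  obtain ⟨R, hR⟩ := hb.subset_ball 0
  let P : Pool.Agent.KS6_23.LP.HP := ⟨n, hn, c⟩
  have hpol : polarization n c Ω = P.pol Ω := by
    have hH : halfPlane n c = P.H := by
      ext x
      change c < ⟪n, x⟫ ↔ 0 < ⟪n, x⟫ - c
      rw [sub_pos]
    unfold polarization Pool.Agent.KS6_23.LP.HP.pol
    rw [hH]
    rfl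
  have hcσ : Continuous P.σ := by
    have := P.s_cont
    unfold Pool.Agent.KS6_23.LP.HP.σ
    fun_prop
  have hbσ : Bornology.IsBounded (P.σ '' Ω) := by
    have hc : Metric.closedBall (0:ℂ) R ⊇ Ω := hR.trans Metric.ball_subset_closedBall
    exact ((isCompact_closedBall (0:ℂ) R).image hcσ).isBounded.subset (image_mono hc)
  have hbp : Bornology.IsBounded (P.pol Ω) := by
    refine (hb.union hbσ).subset ?_
    intro x hx
    rw [P.mem_pol] at hx
    have h1 : x ∈ P.σ '' Ω ↔ P.σ x ∈ Ω := by rw [P.image_eq]; rfl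
    rw [mem_union, h1]
    tauto
  rw [hpol]
  exact exists_unique_tau (P.pol_meas hΩ) hbp

end Pool.Agent.Results.MP_86d647_an.EqualityCases
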